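import Mathlib
import Pool.Agent.K1H49.PL.Stm

/-! Project PL, pieces BASE and T0. -/

namespace Pool.Agent.K1H97.PL
open Pool.Agent.K1H49.PL

universe u

theorem emb_mono {e : Nd → Nd} (he : Emb e) (π τ : Nd) : e π <+: e (π ++ τ) := by
  induction τ using List.reverseRecOn with
  | nil => simp
  | append_singleton τ d ih =>
    refine ih.trans ?_
    rw [← List.append_assoc]
    exact (List.prefix_append _ _).trans (he (π ++ τ) d)

/-- the top of a chain -/
def top : AS → Nd → Nd
  | .nil, π => π
  | .lab k F, π => top F (π ++ [k.dir])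
  | .split _ _, π => π
  | .tt, π => π
  | .s, π => π

theorem top_pre (F : AS) : ∀ π : Nd, π <+: top F π := by
  induction F with
  | nil => intro π; exact List.prefix_rfl
  | lab k F ih => intro π; exact (List.prefix_append _ _).trans (ih (π ++ [k.dir]))
  | split _ _ _ _ => intro π; exact List.prefix_rfl
  | tt => intro π; exact List.prefix_rfl
  | s => intro π; exact List.prefix_rfl

theorem chain_pos (F : AS) : F.chain → ∀ π : Nd, ∀ p ∈ (F.ex 0).pos π,
    ∃ k : Kd, (p.1 ++ [k.dir]) <+: top F π ∧ p.2 ∈ k.labs := by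
  induction F with
  | nil => intro _ π p hp; simp [AS.ex, Sh.pos] at hp
  | lab k F ih =>
    intro hF π p hp
    have hF' : F.chain := hF
    by_cases hk : k.dir = true
    · have e1 : ((AS.lab k F).ex 0) = .node k.labs .nil (F.ex 0) := by
        simp only [AS.ex, hk, if_true]
      rw [e1] at hp
      simp only [Sh.pos, List.nil_append, List.mem_append, List.mem_map] at hp
      rcases hp with ⟨a, ha, rfl⟩ | hp
      · exact ⟨k, top_pre F _, ha⟩
      · rw [← hk] at hp
        exact ih hF' _ p hp
    · have hk' : k.dir = false := by simpa using hk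
      have e1 : ((AS.lab k F).ex 0) = .node k.labs (F.ex 0) .nil := by
        simp only [AS.ex, hk', if_false, Bool.false_eq_true]
      rw [e1] at hp
      simp only [Sh.pos, List.append_nil, List.mem_append, List.mem_map] at hp
      rcases hp with ⟨a, ha, rfl⟩ | hp
      · exact ⟨k, top_pre F _, ha⟩
      · rw [← hk'] at hp
        exact ih hF' _ p hp
  | split _ _ _ _ => intro hF; exact hF.elim
  | tt => intro hF; exact hF.elim
  | s => intro hF; exact hF.elim

/-- `BASE` -/
theorem t_BASE : S_BASE.{u} := by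
  intro M X V Z β α γ c htc F hF e he
  obtain ⟨h1, h2⟩ := htc
  obtain ⟨x, hx1, hx2⟩ := h2 (e (top F []))
  have hw0 : zr (n := 0) (Sum.elim ((fun η => c η ∘ Sum.inr) (e (top F []))) x : An X Z 0 → M) =
      (c (e (top F [])) ∘ Sum.inr : Z → M) := rfl
  refine ⟨(Sum.elim (c (e (top F [])) ∘ Sum.inr) x : An X Z 0 → M), ?_, ?_⟩
  · exact hx2 _ List.prefix_rfl
  · intro p hp
    obtain ⟨k, hk, hl⟩ := chain_pos F hF [] p hp
    have h3 : (e p.1 ++ [k.dir]) <+: e (top F []) := by
      obtain ⟨τ, hτ⟩ := hk
      rw [← hτ]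
      exact (he p.1 k.dir).trans (emb_mono he _ τ)
    have h4 : e p.1 <+: e (top F []) := (List.prefix_append _ _).trans h3
    have hR : rho β α γ 0 .R (Sum.elim (c (e (top F [])) ∘ Sum.inr) x : An X Z 0 → M) (c (e p.1)) :=
      hx2 _ h4
    have hQ : k.dir = false →
        rho β α γ 0 .Q (Sum.elim (c (e (top F [])) ∘ Sum.inr) x : An X Z 0 → M) (c (e p.1)) := by
      intro hd
      rw [hd] at h3
      exact h1 _ _ h3
    have hP : k.dir = true →
        rho β α γ 0 .P (Sum.elim (c (e (top F [])) ∘ Sum.inr) x : An X Z 0 → M) (c (e p.1)) := by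
      intro hd
      rw [hd] at h3
      exact hx1 _ h3
    cases k <;> simp only [Kd.labs, List.mem_cons, List.not_mem_nil, or_false] at hl
    · rw [hl]; exact hQ rfl
    · rcases hl with hl | hl
      · rw [hl]; exact hQ rfl
      · rw [hl]; exact hR
    · rw [hl]; exact hP rfl
    · rcases hl with hl | hl
      · rw [hl]; exact hP rfl
      · rw [hl]; exact hR
    · rw [hl]; exact hR
    · rw [hl]; exact hR

theorem rT_pos (F : AS) : ∀ π : Nd, ∀ p ∈ (F.ex 0).pos π,
    p ∈ (F.rT.ex 0).pos π ∨ (p.2 = .T [] ∧ (p.1, Lab.R) ∈ (F.rT.ex 0).pos π) := by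
  induction F with
  | nil => intro π p hp; exact Or.inl hp
  | lab k F ih =>
    intro π p hp
    by_cases hk : k.dir = true
    · have e1 : ((AS.lab k F).ex 0) = .node k.labs .nil (F.ex 0) := by
        simp only [AS.ex, hk, if_true]
      have e2 : ((AS.lab k F).rT.ex 0) = .node k.labs .nil (F.rT.ex 0) := by
        simp only [AS.rT, AS.ex, hk, if_true]
      rw [e1] at hp
      rw [e2]
      simp only [Sh.pos, List.nil_append, List.mem_append] at hp ⊢
      rcases hp with hp | hp
      · exact Or.inl (Or.inl hp)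
      · rcases ih _ p hp with h | ⟨h, h'⟩
        · exact Or.inl (Or.inr h)
        · exact Or.inr ⟨h, Or.inr h'⟩
    · have hk' : k.dir = false := by simpa using hk
      have e1 : ((AS.lab k F).ex 0) = .node k.labs (F.ex 0) .nil := by
        simp only [AS.ex, hk', if_false, Bool.false_eq_true]
      have e2 : ((AS.lab k F).rT.ex 0) = .node k.labs (F.rT.ex 0) .nil := by
        simp only [AS.rT, AS.ex, hk', if_false, Bool.false_eq_true]
      rw [e1] at hp
      rw [e2]
      simp only [Sh.pos, List.append_nil, List.mem_append] at hp ⊢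
      rcases hp with hp | hp
      · exact Or.inl (Or.inl hp)
      · rcases ih _ p hp with h | ⟨h, h'⟩
        · exact Or.inl (Or.inr h)
        · exact Or.inr ⟨h, Or.inr h'⟩
  | split F G ihF ihG =>
    intro π p hp
    have e1 : ((AS.split F G).ex 0) = .node [] (F.ex 0) (G.ex 0) := rfl
    have e2 : ((AS.split F G).rT.ex 0) = .node [] (F.rT.ex 0) (G.rT.ex 0) := rfl
    rw [e1] at hp
    rw [e2]
    simp only [Sh.pos, List.map_nil, List.nil_append, List.mem_append] at hp ⊢
    rcases hp with hp | hp
    · rcases ihF _ p hp with h | ⟨h, h'⟩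
      · exact Or.inl (Or.inl h)
      · exact Or.inr ⟨h, Or.inl h'⟩
    · rcases ihG _ p hp with h | ⟨h, h'⟩
      · exact Or.inl (Or.inr h)
      · exact Or.inr ⟨h, Or.inr h'⟩
  | tt =>
    intro π p hp
    right
    have e1 : (AS.tt.ex 0) = .node [.T []] .nil .nil := rfl
    have e2 : (AS.tt.rT.ex 0) = .node [.R] .nil .nil := rfl
    rw [e1] at hp
    rw [e2]
    simp only [Sh.pos, List.map_cons, List.map_nil, List.append_nil, List.mem_cons,
      List.not_mem_nil, or_false] at hp ⊢
    rw [hp]
    exact ⟨rfl, rfl⟩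
  | s => intro π p hp; exact Or.inl hp

/-- `T0` -/
theorem t_T0 : S_T0.{u} := by
  intro M X V Z β α γ c F e w h p hp
  rcases rT_pos F [] p hp with h1 | ⟨h1, h2⟩
  · exact h p h1
  · have h3 := h _ h2
    rw [h1]
    exact fun _ => h3

end Pool.Agent.K1H97.PL
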